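import Pool.Agent.H349Z.Ind.Lower

/-!
The limit of the maximal densities.
-/

namespace Pool.Agent.H349Z.Ind
open Finset Filter Topology

theorem tendsto_choose (u : ℕ → ℕ) (a : ℝ)
    (hu : Tendsto (fun n : ℕ => (u n : ℝ) / n) atTop (𝓝 a)) (j : ℕ) :
    Tendsto (fun n : ℕ => ((u n).choose j : ℝ) / (n : ℝ) ^ j) atTop (𝓝 (a ^ j / j.factorial)) := by
  induction j with
  | zero => simp
  | succ j ih =>
    have h0 : Tendsto (fun n : ℕ => (j : ℝ) / n) atTop (𝓝 0) :=
      tendsto_const_div_atTop_nhds_zero_nat (j : ℝ)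
    have h1 := (ih.mul (hu.sub h0)).div_const ((j : ℝ) + 1)
    have e : a ^ j / j.factorial * (a - 0) / ((j : ℝ) + 1) =
        a ^ (j + 1) / (j + 1).factorial := by
      rw [Nat.factorial_succ]
      push_cast
      field_simp
      ring
    rw [e] at h1
    refine h1.congr' ?_
    filter_upwards [eventually_gt_atTop 0] with n hn
    have hn' : (n : ℝ) ≠ 0 := by positivity
    have h2 : (((u n).choose (j + 1) : ℕ) : ℝ) * ((j : ℝ) + 1) =
        ((u n).choose j : ℕ) * ((u n : ℝ) - j) := by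
      by_cases h : j ≤ u n
      · have := Nat.choose_succ_right_eq (u n) j
        have h3 : (((u n).choose (j + 1) * (j + 1) : ℕ) : ℝ) =
            (((u n).choose j * (u n - j) : ℕ) : ℝ) := by rw [this]
        push_cast [Nat.cast_sub h] at h3
        exact h3
      · push Not at h
        rw [Nat.choose_eq_zero_of_lt h, Nat.choose_eq_zero_of_lt (by omega)]
        simp
    have h4 : (((u n).choose (j + 1) : ℕ) : ℝ) =
        ((u n).choose j : ℕ) * ((u n : ℝ) - j) / ((j : ℝ) + 1) := by
      rw [← h2]; field_simp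
    rw [h4]
    field_simp
    ring

/-- The optimal proportion of leaves in the larger caterpillar. -/
noncomputable def al : ℝ := (1 + Real.sqrt (Real.sqrt 5 - 2)) / 2

theorem w_sq : Real.sqrt (Real.sqrt 5 - 2) ^ 2 = Real.sqrt 5 - 2 :=
  Real.sq_sqrt (by have := sqrt5_gt; linarith)

theorem al_ge : 1 / 2 ≤ al := by
  unfold al
  have := Real.sqrt_nonneg (Real.sqrt 5 - 2)
  linarith

theorem al_lt : al < 1 := by
  unfold al
  have h : Real.sqrt (Real.sqrt 5 - 2) < 1 := by
    rw [Real.sqrt_lt' (by norm_num)]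
    have := sqrt5_lt
    linarith
  linarith

theorem al_val : (al ^ 2 / (Nat.factorial 2) * ((1 - al) ^ 6 / (Nat.factorial 6)) +
    (1 - al) ^ 2 / (Nat.factorial 2) * (al ^ 6 / (Nat.factorial 6))) /
      ((1 : ℝ) ^ 8 / (Nat.factorial 8)) = M := by
  have hs : al * (1 - al) = (3 - Real.sqrt 5) / 4 := by
    unfold al
    have := w_sq
    nlinarith
  have e : (al ^ 2 / (Nat.factorial 2) * ((1 - al) ^ 6 / (Nat.factorial 6)) +
    (1 - al) ^ 2 / (Nat.factorial 2) * (al ^ 6 / (Nat.factorial 6))) /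
      ((1 : ℝ) ^ 8 / (Nat.factorial 8)) =
      28 * (al * (1 - al)) ^ 2 * (1 - 4 * (al * (1 - al)) + 2 * (al * (1 - al)) ^ 2) := by
    simp only [Nat.factorial]
    push_cast
    ring
  rw [e, hs]
  unfold M
  have hr := sqrt5_sq
  set r := Real.sqrt 5
  have hr3 : r ^ 3 = 5 * r := by rw [pow_succ, hr]
  have hr4 : r ^ 4 = 25 := by
    rw [show r ^ 4 = (r ^ 2) ^ 2 by ring, hr]; norm_num
  ring_nf
  rw [hr, hr3, hr4]
  ring

theorem irrational_M : Irrational M := by
  have h : Irrational (Real.sqrt 5) := by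
    have := Nat.Prime.irrational_sqrt (p := 5) (by norm_num)
    simpa using this
  rintro ⟨q, hq⟩
  apply h
  refine ⟨(4 / 7 * q + 11) / 5, ?_⟩
  unfold M at hq
  push_cast
  linarith

theorem card_lt_filter (n b : ℕ) (hb : b ≤ n) :
    (univ.filter (fun x : Fin n => decide (x.val < b) = true)).card = b := by
  simp only [decide_eq_true_eq]
  rw [Fin.card_filter_val_lt]
  omega

theorem card_ge_filter (n b : ℕ) (hb : b ≤ n) :
    (univ.filter (fun x : Fin n => decide (x.val < b) = false)).card = n - b := by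
  have h1 := card_lt_filter n b hb
  have h2 := card_filter_add_card_filter_not (s := (univ : Finset (Fin n)))
    (fun x : Fin n => decide (x.val < b) = true)
  simp only [Bool.not_eq_true, card_univ, Fintype.card_fin] at h2
  omega

theorem main : Tendsto (fun n : ℕ => sSup {x : ℝ | ∃ H : Finset (Finset (Fin n)), IsBin H ∧
    x = (Set.ncard {S : Finset (Fin n) | Copy DD H S} : ℝ) / ((n.choose 8 : ℕ) : ℝ)})
    atTop (𝓝 M) := by
  have hal0 : 0 ≤ al := by have := al_ge; linarith
  let b : ℕ → ℕ := fun n => ⌊al * (n : ℝ)⌋₊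
  have hbn : ∀ n : ℕ, b n ≤ n := by
    intro n
    have h1 : (b n : ℝ) ≤ al * n := Nat.floor_le (by positivity)
    have h2 : al * n ≤ n := by
      have := al_lt
      have : (0 : ℝ) ≤ n := Nat.cast_nonneg n
      nlinarith
    exact_mod_cast h1.trans h2
  have hb : Tendsto (fun n : ℕ => (b n : ℝ) / n) atTop (𝓝 al) :=
    (tendsto_nat_floor_mul_div_atTop hal0).comp tendsto_natCast_atTop_atTop
  have hc : Tendsto (fun n : ℕ => ((n - b n : ℕ) : ℝ) / n) atTop (𝓝 (1 - al)) := by
    refine (hb.const_sub 1).congr' ?_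
    filter_upwards [eventually_gt_atTop 0] with n hn
    have hn' : (n : ℝ) ≠ 0 := by positivity
    rw [Nat.cast_sub (hbn n)]
    field_simp
  have hn1 : Tendsto (fun n : ℕ => ((id n : ℕ) : ℝ) / n) atTop (𝓝 1) := by
    refine tendsto_const_nhds.congr' ?_
    filter_upwards [eventually_gt_atTop 0] with n hn
    have hn' : (n : ℝ) ≠ 0 := by positivity
    simp only [id]
    field_simp
  have h8 := tendsto_choose id 1 hn1 8
  have h8ne : ((1 : ℝ) ^ 8 / (Nat.factorial 8)) ≠ 0 := by positivity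
  have hlow := (((tendsto_choose _ _ hb 2).mul (tendsto_choose _ _ hc 6)).add
    ((tendsto_choose _ _ hc 2).mul (tendsto_choose _ _ hb 6))).div h8 h8ne
  rw [al_val] at hlow
  have hup := (tendsto_const_nhds (x := M / 40320)).div h8 h8ne
  have e : M / 40320 / ((1 : ℝ) ^ 8 / (Nat.factorial 8)) = M := by
    simp only [Nat.factorial]
    push_cast
    ring
  rw [e] at hup
  have hub : ∀ n : ℕ, 8 ≤ n → ∀ x ∈ {x : ℝ | ∃ H : Finset (Finset (Fin n)), IsBin H ∧
      x = (Set.ncard {S : Finset (Fin n) | Copy DD H S} : ℝ) / ((n.choose 8 : ℕ) : ℝ)},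
      x ≤ M / 40320 / (((id n).choose 8 : ℝ) / (n : ℝ) ^ 8) := by
    rintro n hn x ⟨H, hH, rfl⟩
    have hpos : (0 : ℝ) < (n.choose 8 : ℕ) := by exact_mod_cast Nat.choose_pos hn
    have hn' : (0 : ℝ) < n := by exact_mod_cast (by omega : 0 < n)
    have := count_upper hH
    simp only [id]
    calc _ ≤ M * (n : ℝ) ^ 8 / 40320 / ((n.choose 8 : ℕ) : ℝ) := by gcongr
      _ = _ := by field_simp
  have hmem : ∀ n : ℕ, 8 ≤ n → IsBin (hier (fun x : Fin n => decide (x.val < b n))) := by
    intro n hn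
    have hn' : (8 : ℝ) ≤ n := by exact_mod_cast hn
    apply isBin_hier
    · refine ⟨⟨0, by omega⟩, ?_⟩
      simp only [decide_eq_true_eq]
      apply Nat.floor_pos.2
      have := al_ge
      nlinarith
    · refine ⟨⟨n - 1, by omega⟩, ?_⟩
      simp only [decide_eq_false_iff_not, not_lt]
      have h1 : b n < n := by
        apply (Nat.floor_lt (by positivity)).2
        have := al_lt
        nlinarith
      omega
  refine tendsto_of_tendsto_of_tendsto_of_le_of_le' hlow hup ?_ ?_
  · filter_upwards [eventually_ge_atTop 8] with n hn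
    refine le_trans ?_ (le_csSup ⟨_, hub n hn⟩ ⟨_, hmem n hn, rfl⟩)
    have hpos : (0 : ℝ) < (n.choose 8 : ℕ) := by exact_mod_cast Nat.choose_pos hn
    have hn' : (0 : ℝ) < n := by exact_mod_cast (by omega : 0 < n)
    have h1 := count_lower (fun x : Fin n => decide (x.val < b n))
    rw [card_lt_filter n _ (hbn n), card_ge_filter n _ (hbn n)] at h1
    have h2 : (((b n).choose 2 : ℕ) : ℝ) * ((n - b n).choose 6 : ℕ) +
        ((n - b n).choose 2 : ℕ) * ((b n).choose 6 : ℕ) ≤
        (Set.ncard {S | Copy DD (hier (fun x : Fin n => decide (x.val < b n))) S} : ℝ) := by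
      exact_mod_cast h1
    simp only [Pi.div_apply, id]
    calc _ = ((((b n).choose 2 : ℕ) : ℝ) * ((n - b n).choose 6 : ℕ) +
        ((n - b n).choose 2 : ℕ) * ((b n).choose 6 : ℕ)) / ((n.choose 8 : ℕ) : ℝ) := by
          field_simp
      _ ≤ _ := by gcongr
  · filter_upwards [eventually_ge_atTop 8] with n hn
    exact csSup_le ⟨_, _, hmem n hn, rfl⟩ (hub n hn)

end Pool.Agent.H349Z.Ind
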