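import Pool.Agent.H349Z.Ind.Upper

/-!
Two caterpillars joined at a root, and the copies of the tree (cherry, 6-leaf caterpillar).
-/

namespace Pool.Agent.H349Z.Ind
open Finset

/-- The cluster below `r` on the side of `r`. -/
def K {n : ℕ} (s : Fin n → Bool) (r : Fin n) : Finset (Fin n) :=
  univ.filter (fun x => s x = s r ∧ x ≤ r)

/-- Two caterpillars, one on each side, joined at a root. -/
def hier {n : ℕ} (s : Fin n → Bool) : Finset (Finset (Fin n)) :=
  insert univ (univ.image (fun i => ({i} : Finset (Fin n))) ∪ univ.image (K s))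

theorem mem_K {n : ℕ} {s : Fin n → Bool} {r x : Fin n} : x ∈ K s r ↔ s x = s r ∧ x ≤ r := by
  simp [K]

theorem mem_hier {n : ℕ} {s : Fin n → Bool} {A : Finset (Fin n)} :
    A ∈ hier s ↔ A = univ ∨ (∃ i, A = {i}) ∨ ∃ r, A = K s r := by
  simp only [hier, mem_insert, mem_union, mem_image, mem_univ, true_and]
  constructor
  · rintro (h | ⟨i, h⟩ | ⟨r, h⟩)
    · exact Or.inl h
    · exact Or.inr (Or.inl ⟨i, h.symm⟩)
    · exact Or.inr (Or.inr ⟨r, h.symm⟩)
  · rintro (h | ⟨i, h⟩ | ⟨r, h⟩)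
    · exact Or.inl h
    · exact Or.inr (Or.inl ⟨i, h.symm⟩)
    · exact Or.inr (Or.inr ⟨r, h.symm⟩)

/-- The conditions making `H` a binary hierarchy. -/
def IsBin {n : ℕ} (H : Finset (Finset (Fin n))) : Prop :=
  Finset.univ ∈ H ∧ (∀ i : Fin n, ({i} : Finset (Fin n)) ∈ H) ∧
    (∅ : Finset (Fin n)) ∉ H ∧
    (∀ A ∈ H, ∀ B ∈ H, A ⊆ B ∨ B ⊆ A ∨ Disjoint A B) ∧
    (∀ A ∈ H, 2 ≤ A.card → ∃ B ∈ H, ∃ C ∈ H,
      B.Nonempty ∧ C.Nonempty ∧ Disjoint B C ∧ B ∪ C = A)

theorem eq_K_of {n : ℕ} {s : Fin n → Bool} {A : Finset (Fin n)} (hA : A.Nonempty)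
    (h1 : ∀ x ∈ A, ∀ y ∈ A, s x = s y)
    (h2 : ∀ x ∈ A, ∀ y, s y = s x → y ≤ x → y ∈ A) : A = K s (A.max' hA) := by
  ext x
  rw [mem_K]
  constructor
  · intro hx
    exact ⟨h1 x hx _ (max'_mem A hA), le_max' A x hx⟩
  · rintro ⟨h3, h4⟩
    exact h2 _ (max'_mem A hA) x h3 h4

theorem isBin_hier {n : ℕ} (s : Fin n → Bool) (ht : ∃ x, s x = true) (hf : ∃ x, s x = false) :
    IsBin (hier s) := by
  obtain ⟨xt, ht⟩ := ht
  obtain ⟨xf, hf⟩ := hf
  refine ⟨mem_hier.2 (Or.inl rfl), fun i => mem_hier.2 (Or.inr (Or.inl ⟨i, rfl⟩)), ?_, ?_, ?_⟩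
  · intro h
    rcases mem_hier.1 h with h | ⟨i, h⟩ | ⟨r, h⟩
    · have : xt ∈ (∅ : Finset (Fin n)) := h ▸ mem_univ xt
      simp at this
    · exact (singleton_ne_empty i) h.symm
    · have : r ∈ (∅ : Finset (Fin n)) := h ▸ mem_K.2 ⟨rfl, le_rfl⟩
      simp at this
  · intro A hA B hB
    rcases mem_hier.1 hA with rfl | ⟨i, rfl⟩ | ⟨r, rfl⟩
    · exact Or.inr (Or.inl (subset_univ _))
    · by_cases h : i ∈ B
      · exact Or.inl (singleton_subset_iff.2 h)
      · exact Or.inr (Or.inr (disjoint_singleton_left.2 h))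
    · rcases mem_hier.1 hB with rfl | ⟨i, rfl⟩ | ⟨r', rfl⟩
      · exact Or.inl (subset_univ _)
      · by_cases h : i ∈ K s r
        · exact Or.inr (Or.inl (singleton_subset_iff.2 h))
        · exact Or.inr (Or.inr (disjoint_singleton_right.2 h))
      · by_cases h : s r = s r'
        · rcases le_total r r' with h' | h'
          · left
            intro x hx
            rw [mem_K] at hx ⊢
            exact ⟨hx.1.trans h, hx.2.trans h'⟩
          · right; left
            intro x hx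
            rw [mem_K] at hx ⊢
            exact ⟨hx.1.trans h.symm, hx.2.trans h'⟩
        · right; right
          rw [disjoint_left]
          intro x hx hx'
          rw [mem_K] at hx hx'
          exact h (hx.1.symm.trans hx'.1)
  · intro A hA h2
    rcases mem_hier.1 hA with rfl | ⟨i, rfl⟩ | ⟨r, rfl⟩
    · have hT : (univ.filter (fun x => s x = true)).Nonempty := ⟨xt, by simp [ht]⟩
      have hF : (univ.filter (fun x => s x = false)).Nonempty := ⟨xf, by simp [hf]⟩
      refine ⟨_, mem_hier.2 (Or.inr (Or.inr ⟨_, eq_K_of hT ?_ ?_⟩)), _,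
        mem_hier.2 (Or.inr (Or.inr ⟨_, eq_K_of hF ?_ ?_⟩)), hT, hF, ?_, ?_⟩
      · intro x hx y hy
        simp only [mem_filter, mem_univ, true_and] at hx hy
        rw [hx, hy]
      · intro x hx y hy _
        simp only [mem_filter, mem_univ, true_and] at hx ⊢
        rw [hy, hx]
      · intro x hx y hy
        simp only [mem_filter, mem_univ, true_and] at hx hy
        rw [hx, hy]
      · intro x hx y hy _
        simp only [mem_filter, mem_univ, true_and] at hx ⊢
        rw [hy, hx]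
      · rw [disjoint_left]
        intro x hx hx'
        simp only [mem_filter, mem_univ, true_and] at hx hx'
        rw [hx] at hx'
        exact Bool.noConfusion hx'
      · ext x
        simp only [mem_union, mem_filter, mem_univ, true_and, iff_true]
        cases s x <;> simp
    · simp at h2
    · have hr : r ∈ K s r := mem_K.2 ⟨rfl, le_rfl⟩
      have hE : ((K s r).erase r).Nonempty := by
        rw [← card_pos, card_erase_of_mem hr]; omega
      refine ⟨{r}, mem_hier.2 (Or.inr (Or.inl ⟨r, rfl⟩)), _,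
        mem_hier.2 (Or.inr (Or.inr ⟨_, eq_K_of hE ?_ ?_⟩)), singleton_nonempty r, hE, ?_, ?_⟩
      · intro x hx y hy
        rw [mem_erase, mem_K] at hx hy
        rw [hx.2.1, hy.2.1]
      · intro x hx y hy hyx
        rw [mem_erase, mem_K] at hx ⊢
        refine ⟨?_, hy.trans hx.2.1, hyx.trans hx.2.2⟩
        rintro rfl
        exact hx.1 (le_antisymm hx.2.2 hyx)
      · exact disjoint_singleton_left.2 (notMem_erase r _)
      · rw [← insert_eq, insert_erase hr]

/-- `S` induces a copy of `D` in `H`. -/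
def Copy {k n : ℕ} (D : Finset (Finset (Fin k))) (H : Finset (Finset (Fin n)))
    (S : Finset (Fin n)) : Prop :=
  ∃ e : Fin k → Fin n, Function.Injective e ∧ Set.range e = (↑S : Set (Fin n)) ∧
    ∀ A : Finset (Fin k), A ∈ D ↔ (A.Nonempty ∧ ∃ C ∈ H, C ∩ S = A.image e)

theorem copy_of_emb {k n : ℕ} (sD : Fin k → Bool) (sH : Fin n → Bool) (i0 : Fin k)
    (e : Fin k → Fin n) (he : Function.Injective e)
    (h1 : ∀ i j, sH (e i) = sH (e j) ↔ sD i = sD j)
    (h2 : ∀ i j, sD i = sD j → (e i ≤ e j ↔ i ≤ j)) :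
    Copy (hier sD) (hier sH) (univ.image e) := by
  refine ⟨e, he, by simp, fun A => ⟨fun hA => ?_, ?_⟩⟩
  · rcases mem_hier.1 hA with rfl | ⟨i, rfl⟩ | ⟨r, rfl⟩
    · exact ⟨⟨i0, mem_univ _⟩, univ, mem_hier.2 (Or.inl rfl), by simp⟩
    · refine ⟨singleton_nonempty i, {e i}, mem_hier.2 (Or.inr (Or.inl ⟨_, rfl⟩)), ?_⟩
      rw [image_singleton, singleton_inter_of_mem (mem_image_of_mem e (mem_univ i))]
    · refine ⟨⟨r, mem_K.2 ⟨rfl, le_rfl⟩⟩, K sH (e r),
        mem_hier.2 (Or.inr (Or.inr ⟨_, rfl⟩)), ?_⟩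
      ext x
      simp only [mem_inter, mem_K, mem_image, mem_univ, true_and]
      constructor
      · rintro ⟨⟨h3, h4⟩, i, rfl⟩
        have h5 := (h1 i r).1 h3
        exact ⟨i, ⟨h5, (h2 i r h5).1 h4⟩, rfl⟩
      · rintro ⟨i, ⟨h3, h4⟩, rfl⟩
        exact ⟨⟨(h1 i r).2 h3, (h2 i r h3).2 h4⟩, i, rfl⟩
  · rintro ⟨hA, C, hC, hCA⟩
    have hmem : ∀ i, i ∈ A ↔ e i ∈ C := by
      intro i
      constructor
      · intro hi
        have : e i ∈ C ∩ univ.image e := hCA ▸ mem_image_of_mem e hi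
        exact (mem_inter.1 this).1
      · intro hi
        have : e i ∈ A.image e := hCA ▸ mem_inter.2 ⟨hi, mem_image_of_mem e (mem_univ i)⟩
        obtain ⟨j, hj, hji⟩ := mem_image.1 this
        rwa [← he hji]
    rcases mem_hier.1 hC with rfl | ⟨x, rfl⟩ | ⟨r, rfl⟩
    · refine mem_hier.2 (Or.inl ?_)
      ext i
      simp [hmem]
    · obtain ⟨i, hi⟩ := hA
      refine mem_hier.2 (Or.inr (Or.inl ⟨i, ?_⟩))
      have hix : e i = x := mem_singleton.1 ((hmem i).1 hi)
      ext j
      rw [hmem, mem_singleton, mem_singleton, ← hix]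
      exact he.eq_iff
    · refine mem_hier.2 (Or.inr (Or.inr ⟨_, eq_K_of hA ?_ ?_⟩))
      · intro x hx y hy
        rw [hmem, mem_K] at hx hy
        exact (h1 x y).1 (hx.1.trans hy.1.symm)
      · intro x hx y hy hyx
        rw [hmem, mem_K] at hx ⊢
        exact ⟨((h1 y x).2 hy).trans hx.1, ((h2 y x hy).2 hyx).trans hx.2⟩

/-- The side function of the pattern tree. -/
def sD : Fin 8 → Bool := fun i => decide (i.val < 2)

/-- The pattern tree: a cherry and a caterpillar with six leaves, joined at a root. -/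
def DD : Finset (Finset (Fin 8)) := hier sD

theorem isBin_DD : IsBin DD := isBin_hier sD ⟨0, rfl⟩ ⟨2, rfl⟩

theorem copy_of_split {n : ℕ} (s : Fin n → Bool) (b : Bool) (S1 S2 : Finset (Fin n))
    (h1 : ∀ x ∈ S1, s x = b) (h2 : ∀ x ∈ S2, s x ≠ b) (c1 : S1.card = 2) (c2 : S2.card = 6) :
    Copy DD (hier s) (S1 ∪ S2) := by
  let e : Fin 8 → Fin n := fun i =>
    if h : i.val < 2 then S1.orderEmbOfFin c1 ⟨i.val, h⟩
    else S2.orderEmbOfFin c2 ⟨i.val - 2, by omega⟩
  have hs : ∀ i, s (e i) = b ↔ i.val < 2 := by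
    intro i
    by_cases h : i.val < 2
    · simp only [e, dif_pos h]
      exact ⟨fun _ => h, fun _ => h1 _ (orderEmbOfFin_mem _ _ _)⟩
    · simp only [e, dif_neg h]
      exact ⟨fun h' => absurd h' (h2 _ (orderEmbOfFin_mem _ _ _)), fun h' => absurd h' h⟩
  have hA : ∀ i j, s (e i) = s (e j) ↔ sD i = sD j := by
    intro i j
    have hi := hs i
    have hj := hs j
    simp only [sD, decide_eq_decide]
    rw [← hi, ← hj]
    cases s (e i) <;> cases s (e j) <;> cases b <;> simp
  have hB : ∀ i j, sD i = sD j → (e i ≤ e j ↔ i ≤ j) := by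
    intro i j hij
    simp only [sD, decide_eq_decide] at hij
    by_cases h : i.val < 2
    · have h' := hij.1 h
      simp only [e, dif_pos h, dif_pos h', OrderEmbedding.le_iff_le, Fin.le_def]
    · have h' : ¬ j.val < 2 := fun h' => h (hij.2 h')
      simp only [e, dif_neg h, dif_neg h', OrderEmbedding.le_iff_le, Fin.le_def]
      omega
  have he : Function.Injective e := by
    intro i j hij
    have h3 := (hA i j).1 (by rw [hij])
    exact le_antisymm ((hB i j h3).1 hij.le) ((hB j i h3.symm).1 hij.ge)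
  have himg : univ.image e = S1 ∪ S2 := by
    apply eq_of_subset_of_card_le
    · intro x hx
      obtain ⟨i, -, rfl⟩ := mem_image.1 hx
      by_cases h : i.val < 2
      · simp only [e, dif_pos h]
        exact mem_union_left _ (orderEmbOfFin_mem _ _ _)
      · simp only [e, dif_neg h]
        exact mem_union_right _ (orderEmbOfFin_mem _ _ _)
    · rw [card_image_of_injective _ he, card_univ, Fintype.card_fin]
      have := card_union_le S1 S2
      omega
  rw [← himg]
  exact copy_of_emb sD s 0 e he hA hB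

theorem count_lower {n : ℕ} (s : Fin n → Bool) :
    (univ.filter (fun x => s x = true)).card.choose 2 *
        (univ.filter (fun x => s x = false)).card.choose 6 +
      (univ.filter (fun x => s x = false)).card.choose 2 *
        (univ.filter (fun x => s x = true)).card.choose 6 ≤
      Set.ncard {S | Copy DD (hier s) S} := by
  set L := univ.filter (fun x => s x = true) with hL
  set R := univ.filter (fun x => s x = false) with hR
  have hLR : Disjoint L R := by
    rw [disjoint_left]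
    intro x hx hx'
    simp only [hL, hR, mem_filter, mem_univ, true_and] at hx hx'
    rw [hx] at hx'
    exact Bool.noConfusion hx'
  have key : ∀ {U V S1 S2 : Finset (Fin n)}, Disjoint U V → S1 ⊆ U → S2 ⊆ V →
      (S1 ∪ S2) ∩ U = S1 ∧ (S1 ∪ S2) ∩ V = S2 := by
    intro U V S1 S2 hUV h1 h2
    constructor
    · rw [union_inter_distrib_right, inter_eq_left.2 h1,
        disjoint_iff_inter_eq_empty.1 (hUV.symm.mono_left h2), union_empty]
    · rw [union_inter_distrib_right, inter_eq_left.2 h2,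
        disjoint_iff_inter_eq_empty.1 (hUV.mono_left h1), empty_union]
  have inj : ∀ {U V : Finset (Fin n)}, Disjoint U V →
      ((powersetCard 2 U ×ˢ powersetCard 6 V).image (fun p => p.1 ∪ p.2)).card =
        U.card.choose 2 * V.card.choose 6 := by
    intro U V hUV
    rw [card_image_of_injOn, card_product, card_powersetCard, card_powersetCard]
    rintro ⟨a, b⟩ hp ⟨c, d⟩ hq h
    simp only [coe_product, Set.mem_prod, mem_coe, mem_powersetCard] at hp hq
    simp only at h
    have k1 := key hUV hp.1.1 hp.2.1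
    have k2 := key hUV hq.1.1 hq.2.1
    rw [h] at k1
    rw [Prod.mk.injEq]
    exact ⟨k1.1.symm.trans k2.1, k1.2.symm.trans k2.2⟩
  rw [← inj hLR, ← inj hLR.symm, ← card_union_of_disjoint, ← Set.ncard_coe_finset]
  · apply Set.ncard_le_ncard _ (Set.toFinite _)
    intro S hS
    simp only [coe_union, coe_image, coe_product, Set.mem_union, Set.mem_image, Set.mem_prod,
      mem_coe, mem_powersetCard, Prod.exists] at hS
    rcases hS with ⟨a, b, ⟨⟨ha, ca⟩, hb, cb⟩, rfl⟩ | ⟨a, b, ⟨⟨ha, ca⟩, hb, cb⟩, rfl⟩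
    · refine copy_of_split s true a b (fun x hx => ?_) (fun x hx => ?_) ca cb
      · simpa [hL] using ha hx
      · simpa [hR] using hb hx
    · refine copy_of_split s false a b (fun x hx => ?_) (fun x hx => ?_) ca cb
      · simpa [hR] using ha hx
      · simpa [hL] using hb hx
  · rw [disjoint_left]
    intro S hS hS'
    simp only [mem_image, mem_product, mem_powersetCard, Prod.exists] at hS hS'
    obtain ⟨a, b, ⟨⟨ha, ca⟩, hb, cb⟩, rfl⟩ := hS
    obtain ⟨c, d, ⟨⟨hc, cc⟩, hd, cd⟩, h⟩ := hS'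
    have k1 := (key hLR ha hb).1
    have k2 := (key hLR.symm hc hd).2
    rw [h, k1] at k2
    rw [k2] at ca
    omega

theorem DD_fact : ∀ A ∈ DD, ∀ B ∈ DD, 2 ≤ (A ∩ K sD 7).card → 2 ≤ (B ∩ K sD 7).card →
    ¬ Disjoint A B := by
  decide +kernel

theorem dlike_of_copy {n : ℕ} {H : Finset (Finset (Fin n))} (hH : IsBin H) {S : Finset (Fin n)}
    (h : Copy DD H S) : S ∈ dS H univ := by
  obtain ⟨e, he, hr, hA⟩ := h
  have hS : S = univ.image e := by
    apply coe_injective
    rw [← hr]; simp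
  obtain ⟨-, X, hX, hXS⟩ := (hA (K sD 1)).1 (mem_hier.2 (Or.inr (Or.inr ⟨1, rfl⟩)))
  obtain ⟨-, Y, hY, hYS⟩ := (hA (K sD 7)).1 (mem_hier.2 (Or.inr (Or.inr ⟨7, rfl⟩)))
  have pre : ∀ Z : Finset (Fin n), Z ∩ S = (univ.filter (fun i => e i ∈ Z)).image e := by
    intro Z
    ext x
    simp only [hS, mem_inter, mem_image, mem_univ, true_and, mem_filter]
    constructor
    · rintro ⟨h1, i, rfl⟩
      exact ⟨i, h1, rfl⟩
    · rintro ⟨i, h1, rfl⟩
      exact ⟨h1, i, rfl⟩
  refine mem_dS.2 ⟨⟨subset_univ _, ?_⟩, X, hX, Y, hY, ?_, ?_, ?_, ?_⟩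
  · rw [hS, card_image_of_injective _ he, card_univ, Fintype.card_fin]
  · rcases hH.2.2.2.1 X hX Y hY with h | h | h
    · have h1 : X ∩ S ⊆ Y ∩ S := inter_subset_inter h (Subset.refl _)
      rw [hXS, hYS, image_subset_image_iff he] at h1
      exact absurd h1 (by decide +kernel)
    · have h1 : Y ∩ S ⊆ X ∩ S := inter_subset_inter h (Subset.refl _)
      rw [hXS, hYS, image_subset_image_iff he] at h1
      exact absurd h1 (by decide +kernel)
    · exact h
  · rw [hXS, card_image_of_injective _ he]; decide +kernel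
  · rw [hYS, card_image_of_injective _ he]; decide +kernel
  · rintro ⟨X', hX', Y', hY', hd, c1, c2⟩
    have cc : ∀ Z : Finset (Fin n), (Z ∩ (Y ∩ S)).card =
        ((univ.filter (fun i => e i ∈ Z)) ∩ K sD 7).card := by
      intro Z
      have : Z ∩ (Y ∩ S) = (Z ∩ S) ∩ (Y ∩ S) := by
        ext x; simp only [mem_inter]; tauto
      rw [this, pre Z, hYS, ← image_inter _ _ he, card_image_of_injective _ he]
    rw [cc] at c1 c2
    have ne : ∀ Z : Finset (Fin 8), 2 ≤ (Z ∩ K sD 7).card → Z.Nonempty := by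
      intro Z hZ
      have := card_le_card (inter_subset_left (s₁ := Z) (s₂ := K sD 7))
      exact card_pos.1 (by omega)
    refine DD_fact _ ((hA _).2 ⟨ne _ c1, X', hX', pre X'⟩) _ ((hA _).2 ⟨ne _ c2, Y', hY', pre Y'⟩)
      c1 c2 ?_
    rw [disjoint_left]
    intro i hi hi'
    simp only [mem_filter, mem_univ, true_and] at hi hi'
    exact disjoint_left.1 hd hi hi'

theorem count_upper {n : ℕ} {H : Finset (Finset (Fin n))} (hH : IsBin H) :
    (Set.ncard {S | Copy DD H S} : ℝ) ≤ M * (n : ℝ) ^ 8 / 40320 := by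
  have h1 : Set.ncard {S | Copy DD H S} ≤ (dS H univ).card := by
    rw [← Set.ncard_coe_finset]
    exact Set.ncard_le_ncard (fun S hS => dlike_of_copy hH hS) (Set.toFinite _)
  have h2 := upper hH.2.2.2.1 hH.2.2.2.2 _ univ hH.1 rfl
  rw [card_univ, Fintype.card_fin] at h2
  exact le_trans (by exact_mod_cast h1) h2

end Pool.Agent.H349Z.Ind
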