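import Mathlib

/-!
Upper bound for the density of the tree (cherry, 6-leaf caterpillar) in a binary hierarchy.
-/

namespace Pool.Agent.H349Z.Ind
open Finset

variable {α : Type*} [DecidableEq α]

/-- `R` meets two disjoint clusters in at least two points each. -/
def Bad (H : Finset (Finset α)) (R : Finset α) : Prop :=
  ∃ X ∈ H, ∃ Y ∈ H, Disjoint X Y ∧ 2 ≤ (X ∩ R).card ∧ 2 ≤ (Y ∩ R).card

/-- `S` splits along two disjoint clusters into a pair and a six-set that is not bad. -/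
def DLike (H : Finset (Finset α)) (S : Finset α) : Prop :=
  ∃ X ∈ H, ∃ Y ∈ H, Disjoint X Y ∧ (X ∩ S).card = 2 ∧ (Y ∩ S).card = 6 ∧ ¬ Bad H (Y ∩ S)

open Classical in
noncomputable def dS (H : Finset (Finset α)) (A : Finset α) : Finset (Finset α) :=
  (powersetCard 8 A).filter (fun S => DLike H S)

open Classical in
noncomputable def gS (H : Finset (Finset α)) (A : Finset α) : Finset (Finset α) :=
  (powersetCard 6 A).filter (fun R => ¬ Bad H R)

open Classical in
noncomputable def bS (H : Finset (Finset α)) (A : Finset α) : Finset (Finset α) :=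
  (powersetCard 6 A).filter (fun R => Bad H R)

theorem mem_dS {H : Finset (Finset α)} {A S : Finset α} :
    S ∈ dS H A ↔ (S ⊆ A ∧ S.card = 8) ∧ DLike H S := by
  classical
  unfold dS; simp only [mem_filter, mem_powersetCard]

theorem mem_gS {H : Finset (Finset α)} {A S : Finset α} :
    S ∈ gS H A ↔ (S ⊆ A ∧ S.card = 6) ∧ ¬ Bad H S := by
  classical
  unfold gS; simp only [mem_filter, mem_powersetCard]

theorem mem_bS {H : Finset (Finset α)} {A S : Finset α} :
    S ∈ bS H A ↔ (S ⊆ A ∧ S.card = 6) ∧ Bad H S := by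
  classical
  unfold bS; simp only [mem_filter, mem_powersetCard]

theorem card_bS_add_gS (H : Finset (Finset α)) (A : Finset α) :
    (bS H A).card + (gS H A).card = A.card.choose 6 := by
  classical
  rw [← card_powersetCard]
  unfold bS gS
  convert card_filter_add_card_filter_not (s := powersetCard 6 A) (fun R => Bad H R)

theorem split_eq {X Y S : Finset α} (hXY : Disjoint X Y) (hS : S.card = 8)
    (hX : (X ∩ S).card = 2) (hY : (Y ∩ S).card = 6) : (X ∩ S) ∪ (Y ∩ S) = S := by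
  apply eq_of_subset_of_card_le
  · exact union_subset inter_subset_right inter_subset_right
  · rw [card_union_of_disjoint (hXY.mono inter_subset_left inter_subset_left)]
    omega

theorem side {H : Finset (Finset α)}
    (hl : ∀ A ∈ H, ∀ B ∈ H, A ⊆ B ∨ B ⊆ A ∨ Disjoint A B) {B C Z S : Finset α}
    (hB : B ∈ H) (hC : C ∈ H) (hZ : Z ∈ H) (hS : S ⊆ B ∪ C) :
    Z ∩ S ⊆ B ∨ Z ∩ S ⊆ C ∨ S ⊆ Z := by
  rcases hl Z hZ B hB with h | h | h
  · exact Or.inl (inter_subset_left.trans h)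
  · rcases hl Z hZ C hC with h' | h' | h'
    · exact Or.inr (Or.inl (inter_subset_left.trans h'))
    · exact Or.inr (Or.inr (hS.trans (union_subset h h')))
    · left
      intro x hx
      rw [mem_inter] at hx
      rcases mem_union.1 (hS hx.2) with h1 | h1
      · exact h1
      · exact absurd h1 (disjoint_left.1 h' hx.1)
  · right; left
    intro x hx
    rw [mem_inter] at hx
    rcases mem_union.1 (hS hx.2) with h1 | h1
    · exact absurd h1 (disjoint_left.1 h hx.1)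
    · exact h1

theorem card_rec {H : Finset (Finset α)}
    (hl : ∀ A ∈ H, ∀ B ∈ H, A ⊆ B ∨ B ⊆ A ∨ Disjoint A B) {B C : Finset α}
    (hB : B ∈ H) (hC : C ∈ H) :
    (dS H (B ∪ C)).card ≤ (dS H B).card + (dS H C).card + B.card.choose 2 * (gS H C).card
      + C.card.choose 2 * (gS H B).card := by
  have hsub : dS H (B ∪ C) ⊆ ((dS H B ∪ dS H C) ∪
      (powersetCard 2 B ×ˢ gS H C).image (fun p => p.1 ∪ p.2)) ∪
      (powersetCard 2 C ×ˢ gS H B).image (fun p => p.1 ∪ p.2) := by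
    intro S hS
    obtain ⟨⟨hSA, h8⟩, hD⟩ := mem_dS.1 hS
    obtain ⟨X, hX, Y, hY, hXY, h2, h6, hg⟩ := hD
    have hD : DLike H S := ⟨X, hX, Y, hY, hXY, h2, h6, hg⟩
    have hu := split_eq hXY h8 h2 h6
    have hXs : X ∩ S ⊆ B ∨ X ∩ S ⊆ C := by
      rcases side hl hB hC hX hSA with h | h | h
      · exact Or.inl h
      · exact Or.inr h
      · rw [inter_eq_right.2 h] at h2; omega
    have hYs : Y ∩ S ⊆ B ∨ Y ∩ S ⊆ C := by
      rcases side hl hB hC hY hSA with h | h | h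
      · exact Or.inl h
      · exact Or.inr h
      · rw [inter_eq_right.2 h] at h6; omega
    simp only [mem_union, mem_image, mem_product, mem_powersetCard, Prod.exists]
    rcases hXs with h1 | h1 <;> rcases hYs with h3 | h3
    · left; left; left
      exact mem_dS.2 ⟨⟨hu ▸ union_subset h1 h3, h8⟩, hD⟩
    · left; right
      exact ⟨X ∩ S, Y ∩ S, ⟨⟨h1, h2⟩, mem_gS.2 ⟨⟨h3, h6⟩, hg⟩⟩, hu⟩
    · right
      exact ⟨X ∩ S, Y ∩ S, ⟨⟨h1, h2⟩, mem_gS.2 ⟨⟨h3, h6⟩, hg⟩⟩, hu⟩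
    · left; left; right
      exact mem_dS.2 ⟨⟨hu ▸ union_subset h1 h3, h8⟩, hD⟩
  refine (card_le_card hsub).trans ?_
  refine (card_union_le _ _).trans (Nat.add_le_add ((card_union_le _ _).trans
    (Nat.add_le_add (card_union_le _ _) ?_)) ?_)
  · refine card_image_le.trans ?_
    rw [card_product, card_powersetCard]
  · refine card_image_le.trans ?_
    rw [card_product, card_powersetCard]

theorem double_count (H : Finset (Finset α)) (B : Finset α) :
    (dS H B).card * 15 ≤ (bS H B).card * (B.card - 6).choose 2 := by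
  classical
  apply card_mul_le_card_mul (fun S R : Finset α => R ⊆ S)
  · intro S hS
    obtain ⟨⟨hSA, h8⟩, hD⟩ := mem_dS.1 hS
    obtain ⟨X, hX, Y, hY, hXY, h2, h6, hg⟩ := hD
    have h15 : (powersetCard 4 (Y ∩ S)).card = 15 := by
      rw [card_powersetCard, h6]; rfl
    rw [← h15]
    apply card_le_card_of_injOn (fun T => (X ∩ S) ∪ T)
    · intro T hT
      rw [mem_coe, mem_powersetCard] at hT
      have hdis : Disjoint (X ∩ S) T :=
        hXY.mono inter_subset_left (hT.1.trans inter_subset_left)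
      have hTS : (X ∩ S) ∪ T ⊆ S :=
        union_subset inter_subset_right (hT.1.trans inter_subset_right)
      simp only [mem_coe, mem_bipartiteAbove]
      refine ⟨mem_bS.2 ⟨⟨hTS.trans hSA, ?_⟩, X, hX, Y, hY, hXY, ?_, ?_⟩, hTS⟩
      · rw [card_union_of_disjoint hdis, h2, hT.2]
      · rw [← h2]
        apply card_le_card
        exact subset_inter inter_subset_left subset_union_left
      · have : T ⊆ Y ∩ ((X ∩ S) ∪ T) :=
          subset_inter (hT.1.trans inter_subset_left) subset_union_right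
        have := card_le_card this
        omega
    · intro T hT T' hT' h
      rw [mem_coe, mem_powersetCard] at hT hT'
      have hdis : Disjoint (X ∩ S) T :=
        hXY.mono inter_subset_left (hT.1.trans inter_subset_left)
      have hdis' : Disjoint (X ∩ S) T' :=
        hXY.mono inter_subset_left (hT'.1.trans inter_subset_left)
      have h1 : ((X ∩ S) ∪ T) \ (X ∩ S) = T := by
        rw [union_sdiff_left]; exact sdiff_eq_self_of_disjoint hdis.symm
      have h2 : ((X ∩ S) ∪ T') \ (X ∩ S) = T' := by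
        rw [union_sdiff_left]; exact sdiff_eq_self_of_disjoint hdis'.symm
      simp only at h
      rw [← h1, ← h2, h]
  · intro R hR
    obtain ⟨⟨hRB, h6⟩, -⟩ := mem_bS.1 hR
    have hc : (powersetCard 2 (B \ R)).card = (B.card - 6).choose 2 := by
      rw [card_powersetCard, card_sdiff_of_subset hRB, h6]
    rw [← hc]
    apply card_le_card_of_injOn (fun S => S \ R)
    · intro S hS
      simp only [mem_coe, mem_bipartiteBelow] at hS
      obtain ⟨⟨hSA, h8⟩, -⟩ := mem_dS.1 hS.1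
      simp only [mem_coe, mem_powersetCard]
      refine ⟨sdiff_subset_sdiff hSA (Subset.refl _), ?_⟩
      rw [card_sdiff_of_subset hS.2, h8, h6]
    · intro S hS S' hS' h
      simp only [mem_coe, mem_bipartiteBelow] at hS hS'
      simp only at h
      rw [← sdiff_union_of_subset hS.2, ← sdiff_union_of_subset hS'.2, h]

/-- The value of the inducibility. -/
noncomputable def M : ℝ := 7 / 4 * (5 * Real.sqrt 5 - 11)

theorem sqrt5_sq : Real.sqrt 5 ^ 2 = 5 := Real.sq_sqrt (by norm_num)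

theorem sqrt5_gt : (2.236 : ℝ) < Real.sqrt 5 := Real.lt_sqrt_of_sq_lt (by norm_num)

theorem sqrt5_lt : Real.sqrt 5 < 3 := by
  rw [Real.sqrt_lt' (by norm_num)]; norm_num

theorem M_ge : (0.315 : ℝ) ≤ M := by
  unfold M; have := sqrt5_gt; linarith

theorem ineq1 (b c : ℝ) (hb : 0 ≤ b) (hc : 0 ≤ c) :
    28 * (b ^ 2 * c ^ 6 + c ^ 2 * b ^ 6) ≤ M * (b + c) ^ 8 := by
  have hr := sqrt5_sq
  have hr1 := sqrt5_gt
  set r := Real.sqrt 5 with hrdef
  set P := (b + c) ^ 2 with hP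
  set s := b * c with hs
  have hs0 : 0 ≤ s := mul_nonneg hb hc
  have hP4 : 4 * s ≤ P := by rw [hP, hs]; nlinarith [sq_nonneg (b - c)]
  have h1 : b ^ 2 * c ^ 6 + c ^ 2 * b ^ 6 = s ^ 2 * (P ^ 2 - 4 * s * P + 2 * s ^ 2) := by
    rw [hP, hs]; ring
  have h2 : (b + c) ^ 8 = P ^ 4 := by rw [hP]; ring
  have key : M * P ^ 4 - 28 * (s ^ 2 * (P ^ 2 - 4 * s * P + 2 * s ^ 2)) =
      56 * (s - (3 - r) / 4 * P) ^ 2 * ((1 + r) / 2 * s * P + (r - 1) / 8 * P ^ 2 - s ^ 2) := by
    unfold M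
    rw [← hrdef]
    have hr3 : r ^ 3 = 5 * r := by rw [pow_succ, hr]
    ring_nf
    rw [hr, hr3]
    ring
  have h3 : 0 ≤ (1 + r) / 2 * s * P + (r - 1) / 8 * P ^ 2 - s ^ 2 := by
    have hP0 : 0 ≤ P := by linarith
    have h4 : 0 ≤ (r - 1) / 8 * P ^ 2 := by
      apply mul_nonneg _ (sq_nonneg _); linarith
    have h5 : s ^ 2 ≤ s * P := by nlinarith
    have h6 : s * P ≤ (1 + r) / 2 * s * P := by
      have : 0 ≤ s * P := mul_nonneg hs0 hP0
      nlinarith
    linarith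
  rw [h1, h2]
  have : 0 ≤ 56 * (s - (3 - r) / 4 * P) ^ 2 *
      ((1 + r) / 2 * s * P + (r - 1) / 8 * P ^ 2 - s ^ 2) := by positivity
  linarith

theorem ineq2 (b c : ℝ) (hc : 0 ≤ c) (hbc : 2 * c ≤ b) :
    M * (b ^ 6 * (b ^ 2 - 15 * c ^ 2)) + 28 * (b ^ 2 * c ^ 6 + c ^ 2 * b ^ 6) ≤
      M * (b + c) ^ 8 := by
  have hb : 0 ≤ b := by linarith
  have hM := M_ge
  have hE : 0 ≤ (b + c) ^ 8 - b ^ 6 * (b ^ 2 - 15 * c ^ 2) := by
    have : (b + c) ^ 8 - b ^ 6 * (b ^ 2 - 15 * c ^ 2) = 8 * b ^ 7 * c + 43 * b ^ 6 * c ^ 2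
      + 56 * b ^ 5 * c ^ 3 + 70 * b ^ 4 * c ^ 4 + 56 * b ^ 3 * c ^ 5 + 28 * b ^ 2 * c ^ 6
      + 8 * b * c ^ 7 + c ^ 8 := by ring
    rw [this]; positivity
  have h1 : 28 * (b ^ 2 * c ^ 6 + c ^ 2 * b ^ 6) ≤
      0.315 * ((b + c) ^ 8 - b ^ 6 * (b ^ 2 - 15 * c ^ 2)) := by
    have hd : 0 ≤ b - 2 * c := by linarith
    have e : 0.315 * ((b + c) ^ 8 - b ^ 6 * (b ^ 2 - 15 * c ^ 2)) -
        28 * (b ^ 2 * c ^ 6 + c ^ 2 * b ^ 6) =
        b ^ 4 * c * (2.52 * b * (b - 3 * c) ^ 2 + 0.665 * c * (b - 4 * c) ^ 2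
          + 0.28 * b * c ^ 2 + 11.41 * c ^ 3)
        + b ^ 2 * c ^ 5 * (17.64 * (b - 2 * c) + 16.1 * c) + 2.52 * b * c ^ 7
        + 0.315 * c ^ 8 := by ring
    have : 0 ≤ b ^ 4 * c * (2.52 * b * (b - 3 * c) ^ 2 + 0.665 * c * (b - 4 * c) ^ 2
          + 0.28 * b * c ^ 2 + 11.41 * c ^ 3)
        + b ^ 2 * c ^ 5 * (17.64 * (b - 2 * c) + 16.1 * c) + 2.52 * b * c ^ 7
        + 0.315 * c ^ 8 := by positivity
    linarith
  nlinarith

theorem step (b c dB dC gB gC : ℝ) (hb : 0 < b) (hc : 0 < c) (h1 : 0 ≤ dB) (h2 : 0 ≤ dC)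
    (h3 : dB ≤ M * b ^ 8 / 40320) (h4 : dC ≤ M * c ^ 8 / 40320)
    (h5 : gB * b ^ 2 ≤ b ^ 8 / 720 - 30 * dB) (h6 : gC * c ^ 2 ≤ c ^ 8 / 720 - 30 * dC) :
    dB + dC + b ^ 2 / 2 * gC + c ^ 2 / 2 * gB ≤ M * (b + c) ^ 8 / 40320 := by
  obtain ⟨x, rfl⟩ : ∃ x, dB = x * b ^ 2 := ⟨dB / b ^ 2, by field_simp⟩
  obtain ⟨y, rfl⟩ : ∃ y, dC = y * c ^ 2 := ⟨dC / c ^ 2, by field_simp⟩
  have hb2 : 0 < b ^ 2 := by positivity
  have hc2 : 0 < c ^ 2 := by positivity
  have hx0 : 0 ≤ x := nonneg_of_mul_nonneg_left h1 hb2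
  have hy0 : 0 ≤ y := nonneg_of_mul_nonneg_left h2 hc2
  have hx : x ≤ M * b ^ 6 / 40320 := by
    apply le_of_mul_le_mul_right _ hb2
    calc x * b ^ 2 ≤ _ := h3
      _ = _ := by ring
  have hy : y ≤ M * c ^ 6 / 40320 := by
    apply le_of_mul_le_mul_right _ hc2
    calc y * c ^ 2 ≤ _ := h4
      _ = _ := by ring
  have hgB : gB ≤ b ^ 6 / 720 - 30 * x := by
    apply le_of_mul_le_mul_right _ hb2
    calc gB * b ^ 2 ≤ _ := h5
      _ = _ := by ring
  have hgC : gC ≤ c ^ 6 / 720 - 30 * y := by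
    apply le_of_mul_le_mul_right _ hc2
    calc gC * c ^ 2 ≤ _ := h6
      _ = _ := by ring
  have hA : x * b ^ 2 + y * c ^ 2 + b ^ 2 / 2 * gC + c ^ 2 / 2 * gB ≤
      x * (b ^ 2 - 15 * c ^ 2) + y * (c ^ 2 - 15 * b ^ 2) +
        28 * (b ^ 2 * c ^ 6 + c ^ 2 * b ^ 6) / 40320 := by
    have e1 := mul_le_mul_of_nonneg_left hgB (by positivity : 0 ≤ c ^ 2 / 2)
    have e2 := mul_le_mul_of_nonneg_left hgC (by positivity : 0 ≤ b ^ 2 / 2)
    nlinarith
  refine hA.trans ?_
  by_cases hbc : b ^ 2 ≤ 15 * c ^ 2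
  · by_cases hcb : c ^ 2 ≤ 15 * b ^ 2
    · have e1 : x * (b ^ 2 - 15 * c ^ 2) ≤ 0 := mul_nonpos_of_nonneg_of_nonpos hx0 (by linarith)
      have e2 : y * (c ^ 2 - 15 * b ^ 2) ≤ 0 := mul_nonpos_of_nonneg_of_nonpos hy0 (by linarith)
      have := ineq1 b c hb.le hc.le
      linarith
    · push Not at hcb
      have e1 : x * (b ^ 2 - 15 * c ^ 2) ≤ 0 := mul_nonpos_of_nonneg_of_nonpos hx0 (by linarith)
      have e2 : y * (c ^ 2 - 15 * b ^ 2) ≤ M * c ^ 6 / 40320 * (c ^ 2 - 15 * b ^ 2) :=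
        mul_le_mul_of_nonneg_right hy (by linarith)
      have h2b : 2 * b ≤ c := by
        by_contra h
        push Not at h
        nlinarith
      have := ineq2 c b hb.le h2b
      rw [add_comm c b] at this
      nlinarith
  · push Not at hbc
    have e1 : x * (b ^ 2 - 15 * c ^ 2) ≤ M * b ^ 6 / 40320 * (b ^ 2 - 15 * c ^ 2) :=
      mul_le_mul_of_nonneg_right hx (by linarith)
    have e2 : y * (c ^ 2 - 15 * b ^ 2) ≤ 0 := mul_nonpos_of_nonneg_of_nonpos hy0 (by linarith)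
    have h2b : 2 * c ≤ b := by
      by_contra h
      push Not at h
      nlinarith
    have := ineq2 b c hc.le h2b
    nlinarith

theorem choose_two_le (n : ℕ) : (n.choose 2 : ℝ) ≤ (n : ℝ) ^ 2 / 2 := by
  have := Nat.choose_le_pow_div (α := ℝ) 2 n
  simpa [Nat.factorial] using this

theorem choose_six_le (n : ℕ) : (n.choose 6 : ℝ) ≤ (n : ℝ) ^ 6 / 720 := by
  have := Nat.choose_le_pow_div (α := ℝ) 6 n
  simpa [Nat.factorial] using this

theorem g_bound (H : Finset (Finset α)) (B : Finset α) :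
    ((gS H B).card : ℝ) * (B.card : ℝ) ^ 2 ≤ (B.card : ℝ) ^ 8 / 720 - 30 * (dS H B).card := by
  have h1 : ((dS H B).card : ℝ) * 15 ≤ (bS H B).card * ((B.card - 6).choose 2 : ℕ) := by
    exact_mod_cast double_count H B
  have h2 : ((bS H B).card : ℝ) + (gS H B).card = (B.card.choose 6 : ℕ) := by
    exact_mod_cast card_bS_add_gS H B
  have h3 : (((B.card - 6).choose 2 : ℕ) : ℝ) ≤ (B.card : ℝ) ^ 2 / 2 := by
    refine le_trans ?_ (choose_two_le B.card)
    exact_mod_cast Nat.choose_le_choose 2 (Nat.sub_le _ _)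
  have h4 := choose_six_le B.card
  have h5 : (0 : ℝ) ≤ (bS H B).card := Nat.cast_nonneg _
  have h6 := mul_le_mul_of_nonneg_left h3 h5
  have h7 : (0 : ℝ) ≤ (B.card : ℝ) ^ 2 := sq_nonneg _
  have h8 := mul_le_mul_of_nonneg_right h4 h7
  have h9 : ((gS H B).card : ℝ) = (B.card.choose 6 : ℕ) - (bS H B).card := by linarith
  rw [h9]
  nlinarith

theorem upper {H : Finset (Finset α)}
    (hl : ∀ A ∈ H, ∀ B ∈ H, A ⊆ B ∨ B ⊆ A ∨ Disjoint A B)
    (hb : ∀ A ∈ H, 2 ≤ A.card → ∃ B ∈ H, ∃ C ∈ H,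
      B.Nonempty ∧ C.Nonempty ∧ Disjoint B C ∧ B ∪ C = A) :
    ∀ m : ℕ, ∀ A ∈ H, A.card = m → ((dS H A).card : ℝ) ≤ M * (A.card : ℝ) ^ 8 / 40320 := by
  intro m
  induction m using Nat.strong_induction_on with
  | _ m ih =>
    intro A hA hm
    by_cases h2 : 2 ≤ A.card
    · obtain ⟨B, hB, C, hC, hBn, hCn, hBC, rfl⟩ := hb A hA h2
      have hcard := card_union_of_disjoint hBC
      have hBp := hBn.card_pos
      have hCp := hCn.card_pos
      have iB := ih B.card (by omega) B hB rfl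
      have iC := ih C.card (by omega) C hC rfl
      have hrec : ((dS H (B ∪ C)).card : ℝ) ≤ (dS H B).card + (dS H C).card
          + (B.card.choose 2 : ℕ) * (gS H C).card + (C.card.choose 2 : ℕ) * (gS H B).card := by
        exact_mod_cast card_rec hl hB hC
      have hs := step B.card C.card (dS H B).card (dS H C).card (gS H B).card (gS H C).card
        (by exact_mod_cast hBp) (by exact_mod_cast hCp) (Nat.cast_nonneg _) (Nat.cast_nonneg _)
        iB iC (g_bound H B) (g_bound H C)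
      have e1 := mul_le_mul_of_nonneg_right (choose_two_le B.card)
        (Nat.cast_nonneg (α := ℝ) (gS H C).card)
      have e2 := mul_le_mul_of_nonneg_right (choose_two_le C.card)
        (Nat.cast_nonneg (α := ℝ) (gS H B).card)
      rw [hcard]
      push_cast
      linarith
    · have : dS H A = ∅ := by
        apply eq_empty_of_forall_notMem
        intro S hS
        obtain ⟨⟨hSA, h8⟩, -⟩ := mem_dS.1 hS
        have := card_le_card hSA
        omega
      rw [this]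
      have := M_ge
      simp only [card_empty, Nat.cast_zero]
      have hM : 0 ≤ M := by linarith
      positivity

end Pool.Agent.H349Z.Ind
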